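import Pool.Agent.H102R3.DPFinal
import Pool.Agent.H102R3.DPHonest

set_option autoImplicit false

/-!
# MP_2a8190_pr, Q1: return probabilities of random walk on dynamical percolation

`Pool.H102.DP.dynReturn G μ p o t` is the annealed return probability `Q_t(o,o)` of random walk on
dynamical percolation, and `Pool.H102.DP.srwReturn G o t` is the return probability `P_t(o,o)` of
continuous-time simple random walk (rate one across each edge). Both are defined as the supremum over
finite vertex sets `Λ` containing `o` of the return probability of the process killed at the first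
attempt to leave `Λ` (a finite-state Markov semigroup `exp (t A)`), i.e. as the transition function of
the minimal process. The lemmas `mono`, `mass_dyn` and `mass_srw` below record that the killed kernels
increase with `Λ` and that their total masses increase to one, so that no mass is lost.
-/

namespace Pool.Agent.Results.MP_2a8190_pr.Comparison

open Pool.H102.DP

variable {V : Type} (G : SimpleGraph V) [G.LocallyFinite]

/-- the killed kernels increase with the finite set -/
theorem mono (Λ Λ' : Finset V) (h : ∀ x ∈ Λ, x ∈ Λ') (μ p t : ℝ)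
    (hμ : 0 ≤ μ) (hp : 0 ≤ p) (hp1 : p ≤ 1) (ht : 0 ≤ t) (x y : Λ) :
    dynKilled G Λ μ p t x y ≤ dynKilled G Λ' μ p t ⟨x.1, h x.1 x.2⟩ ⟨y.1, h y.1 y.2⟩ :=
  dynKilled_embed G (SimpleGraph.Iso.refl) Λ Λ' h μ p t hμ hp hp1 ht x y

/-- no explosion: the total masses of the killed kernels increase to one -/
theorem mass_dyn (hG : G.Connected) (o : V) (d : ℕ) (hd : ∀ x, G.degree x ≤ d)
    (μ p : ℝ) (hμ : 0 ≤ μ) (hp : 0 ≤ p) (hp1 : p ≤ 1) (t : ℝ) (ht : 0 ≤ t) :
    IsLUB (Set.range fun Λ : {Λ : Finset V // o ∈ Λ} =>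
      ∑ y, dynKilled G Λ.1 μ p t ⟨o, Λ.2⟩ y) 1 :=
  dyn_honest G hG o d hd μ p hμ hp hp1 t ht

/-- no explosion for simple random walk -/
theorem mass_srw (hG : G.Connected) (o : V) (d : ℕ) (hd : ∀ x, G.degree x ≤ d)
    (t : ℝ) (ht : 0 ≤ t) :
    IsLUB (Set.range fun Λ : {Λ : Finset V // o ∈ Λ} =>
      ∑ y, srwKilled G Λ.1 t ⟨o, Λ.2⟩ y) 1 :=
  srw_honest G hG o d hd t ht

/-- Q1 holds: on every connected, locally finite, vertex-transitive graph, for every `μ > 0` and
`p ∈ (0,1]` the annealed return probabilities `Q_t(o,o)` of random walk on dynamical percolation and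
the return probabilities `P_t(o,o)` of simple random walk satisfy
`C⁻¹ P_{Ct}(o,o) ≤ Q_t(o,o) ≤ C P_{t/C}(o,o)` for all `t ≥ 0`. -/
theorem result {V : Type} (G : SimpleGraph V) [G.LocallyFinite] (hG : G.Connected)
    (htr : ∀ x y : V, ∃ φ : G ≃g G, φ x = y)
    (μ p : ℝ) (hμ : 0 < μ) (hp : 0 < p) (hp1 : p ≤ 1) (o : V) :
    ∃ C : ℝ, 1 ≤ C ∧ ∀ t : ℝ, 0 ≤ t →
      (1 / C) * srwReturn G o (C * t) ≤ dynReturn G μ p o t ∧
      dynReturn G μ p o t ≤ C * srwReturn G o (t / C) :=
  comparison G hG htr μ p hμ hp hp1 o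

end Pool.Agent.Results.MP_2a8190_pr.Comparison
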